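import Pool.Agent.TH432.Had.Half

/-!
# Every large multiple of four is the sum of two almost equal Hadamard orders

For every natural number `A`, every sufficiently large multiple `n` of four is the sum of two
orders `h₁`, `h₂` of Hadamard matrices, each of them at least `n / 2 - n / (log n) ^ A`.

The first `min h₁ h₂` rows of the two Hadamard matrices, placed side by side, are pairwise orthogonal
rows of length `n` with entries `±1` (`Pool.Agent.TH432.Had.main`): half of a Hadamard matrix of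
order `n`, up to the term `n / (log n) ^ A`.
-/

namespace Pool.Agent.Results.MP_d8b1b3_co.HalfHadamard

/-- every large multiple of four is the sum of two almost equal Hadamard orders -/
theorem result (A : ℕ) : ∃ n₀ : ℕ, ∀ n : ℕ, n₀ ≤ n → 4 ∣ n →
    ∃ h₁ h₂ : ℕ, h₁ + h₂ = n ∧
      (n : ℝ) / 2 - n / (Real.log n) ^ A ≤ h₁ ∧
      (n : ℝ) / 2 - n / (Real.log n) ^ A ≤ h₂ ∧
      (∃ H : Matrix (Fin h₁) (Fin h₁) ℤ, (∀ i j, H i j = 1 ∨ H i j = -1) ∧
        H * H.transpose = (h₁ : ℤ) • (1 : Matrix (Fin h₁) (Fin h₁) ℤ)) ∧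
      (∃ H : Matrix (Fin h₂) (Fin h₂) ℤ, (∀ i j, H i j = 1 ∨ H i j = -1) ∧
        H * H.transpose = (h₂ : ℤ) • (1 : Matrix (Fin h₂) (Fin h₂) ℤ)) := by
  obtain ⟨n₀, h⟩ := Pool.Agent.TH432.Had.main A
  exact ⟨n₀, fun n hn h4 => (h n hn h4).1⟩

end Pool.Agent.Results.MP_d8b1b3_co.HalfHadamard
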