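import Pool.Agent.TH432.NI.Main

/-!
# Approximate Hadamard matrices of every order

An `n × n` matrix `A` with entries `±1` is a Hadamard matrix if and only if `‖A x‖² = n ‖x‖²` for all
real vectors `x`. In every order `n ≥ 2` there is a matrix with entries `±1` such that
`|‖A x‖² - n ‖x‖²| ≤ C (log n)^{3/2} n^{3/4} ‖x‖²` for all `x`: its singular values are `√n` up to a
relative error `O((log n)^{3/2} n^{-1/4})`, and its condition number tends to one.
-/

namespace Pool.Agent.Results.MP_d8b1b3_co.NearIsometries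

/-- in every order `n` there is a sign matrix `A` with `‖A x‖² = (1 + o(1)) n ‖x‖²` for all `x`,
with the relative error `O((log n)^{3/2} n^{-1/4})` -/
theorem result : ∃ C : ℝ, ∀ n : ℕ, 2 ≤ n → ∃ A : Matrix (Fin n) (Fin n) ℝ,
    (∀ i j, A i j = 1 ∨ A i j = -1) ∧ ∀ x : Fin n → ℝ,
      |∑ i, (∑ j, A i j * x j) ^ 2 - n * ∑ j, x j ^ 2| ≤
        C * Real.log n ^ (3 / 2 : ℝ) * (n : ℝ) ^ (3 / 4 : ℝ) * ∑ j, x j ^ 2 :=
  Pool.Agent.TH432.NI.all

end Pool.Agent.Results.MP_d8b1b3_co.NearIsometries
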