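import Mathlib
import Pool.Agent.TH394.HadN179
import Pool.Agent.TH394.HadN223
import Pool.Agent.TH394.HadN311
import Pool.Agent.TH394.HadN347
import Pool.Agent.TH394.HadN419
import Pool.Agent.TH394.HadN443
import Pool.Agent.TH394.HadN479
import Pool.Agent.TH394.HadN487
import Pool.Agent.TH394.HadN491
import Pool.Agent.TH394.HadN919
import Pool.Agent.TH510.HadN359
import Pool.Agent.TH786.Had668
import Pool.Agent.TH786.Had1132

/-!
# Hadamard matrices of orders 668, 716, 892, 1132, 1244, 1388, 1436, 1676, 1772, 1916, 1948, 1964
and 3676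

The first twelve orders are all the multiples of four below 2000 for which no Hadamard matrix was
known; 668 was the smallest open order.

Order `668 = 4 (160 + 7)`: a Goethals-Seidel array over `Z_4 x Z_4 x Z_2 x Z_5` with a border of
width twenty-eight (`Pool.Agent.TH786.Had.hadamard_borderQ`).
Order `1132 = 4 (280 + 3)`: a Goethals-Seidel array over `Z_8 x Z_5 x Z_7` with a border of width
twelve, from sign functions invariant under a group of six automorphisms.
Order `1388 = 4 (342 + 5)`: a Goethals-Seidel array over `Z_2 x Z_9 x Z_19` with a border of width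
twenty, from sign functions invariant under a group of six automorphisms.
Order `1436 = 4 (352 + 7)`: a Goethals-Seidel array over `Z_8 x Z_2 x Z_2 x Z_11` with the border of
width twenty-eight, from sign functions invariant under the squares of `Z_11`.
Order `1916 = 4 (476 + 3)`: a Goethals-Seidel array over `Z_2 x Z_2 x Z_7 x Z_17` with a border of
width twelve, from sign functions invariant under a group of twelve automorphisms.
Order `716 = 4 (176 + 3)`: a Goethals-Seidel array over `Z_16 x Z_11` with a border of width twelve
(`Pool.Agent.TH394.hadamard_border3`). Orders `4 n` with `n = 223, 311, 419, 443, 487, 491`: bordered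
Goethals-Seidel arrays (Spence) over the abelian groups `Z_2 x Z_3 x Z_37`, `Z_2 x Z_5 x Z_31`,
`Z_2 x Z_11 x Z_19`, `Z_2 x Z_13 x Z_17`, `Z_2 x Z_3^5`, `Z_2 x Z_5 x Z_7^2` of order `n - 1`, from four sign functions with row sums
`2, 0, 0, 0` and total periodic autocorrelation `-4`. Order `4 * 919`: the Goethals-Seidel array
over `Z_919`.
-/

set_option autoImplicit false

open Matrix

namespace Pool.Agent.Results.MP_d8b1b3_co.NewOrders

theorem result : ∀ n ∈ ([668, 716, 892, 1132, 1244, 1388, 1436, 1676, 1772, 1916, 1948, 1964,
    3676] : List ℕ),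
    ∃ H : Matrix (Fin n) (Fin n) ℤ,
      (∀ i j, H i j = 1 ∨ H i j = -1) ∧ H * Hᵀ = (n : ℤ) • (1 : Matrix (Fin n) (Fin n) ℤ) := by
  intro n hn
  simp only [List.mem_cons, List.not_mem_nil, or_false] at hn
  rcases hn with rfl | rfl | rfl | rfl | rfl | rfl | rfl | rfl | rfl | rfl |
    rfl | rfl | rfl
  · exact Pool.Agent.TH786.Had.N167.had
  · exact Pool.Agent.TH394.N179.had
  · exact Pool.Agent.TH394.N223.had
  · exact Pool.Agent.TH786.Had.N283.had
  · exact Pool.Agent.TH394.N311.had
  · exact Pool.Agent.TH394.N347.had
  · exact Pool.Agent.TH510.Had.N359.had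
  · exact Pool.Agent.TH394.N419.had
  · exact Pool.Agent.TH394.N443.had
  · exact Pool.Agent.TH394.N479.had
  · exact Pool.Agent.TH394.N487.had
  · exact Pool.Agent.TH394.N491.had
  · exact Pool.Agent.TH394.N919.had

end Pool.Agent.Results.MP_d8b1b3_co.NewOrders
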