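import Pool.Agent.TH432.Had.Miya

/-!
# Hadamard matrices of order `4 q` for prime powers `q ≡ 1 (mod 2 ^ t)`, `t ≥ C ^ (1 + log* q)`

There is a constant `C` such that for all natural numbers `n` and `t` and all prime powers `q` with
`q ≤ 2 ↑↑ n` (the power tower of `n` twos), `C ^ (n + 1) ≤ t` and `q ≡ 1 (mod 2 ^ t)` there is a
Hadamard matrix of order `4 q`.

The matrix consists of four border rows and columns and of `U ⊗ J + V ⊗ K`, where `U` is made of two
copies of the Paley core of the field with `q` elements without the row and the column of `0`, and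
`V` contains a Hadamard matrix of order `q - 1` and its transpose (a form of a theorem of Miyamoto).
The Hadamard matrix of order `q - 1` is supplied by the `log*` theorem of the starting files
(`MP_d8b1b3_co/LogStarExistence`).
-/

namespace Pool.Agent.Results.MP_d8b1b3_co.PrimePowerQuarters

theorem result : ∃ C : ℕ, ∀ n q t : ℕ, IsPrimePow q → q ≤ (fun x : ℕ => 2 ^ x)^[n] 1 →
    C ^ (n + 1) ≤ t → q ≡ 1 [MOD 2 ^ t] →
    ∃ H : Matrix (Fin (4 * q)) (Fin (4 * q)) ℤ,
      (∀ i j, H i j = 1 ∨ H i j = -1) ∧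
      H * H.transpose = ((4 * q : ℕ) : ℤ) • (1 : Matrix (Fin (4 * q)) (Fin (4 * q)) ℤ) := by
  obtain ⟨C, _, h⟩ := Pool.Agent.TH432.Had.main_prime_pow
  refine ⟨C, fun n q t hq hqn ht hmod => h n q t hq hqn ht ?_⟩
  exact (Nat.modEq_iff_dvd' hq.one_lt.le).1 hmod.symm

end Pool.Agent.Results.MP_d8b1b3_co.PrimePowerQuarters
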